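import Pool.Agent.K3h56.E2.Stm

set_option autoImplicit false

open NumberField IsDedekindDomain Filter Topology

noncomputable section

namespace Pool.Agent.K3h95.E2

open Pool.Agent.K3h30.RS Pool.Agent.K3h56.E2

/-- an equivalence of the places other than `v` with `Fin (rank F)` -/
theorem exists_equiv (F : Type) [Field F] [NumberField F] (v : InfinitePlace F) :
    Nonempty ({w : InfinitePlace F // w ≠ v} ≃ Fin (Units.rank F)) := by
  classical
  refine ⟨Fintype.equivFinOfCardEq ?_⟩
  rw [Fintype.card_subtype_compl, Fintype.card_subtype_eq, Units.rank]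

theorem reg_core (F : Type) [Field F] [NumberField F] (v : InfinitePlace F)
    (e : {w : InfinitePlace F // w ≠ v} ≃ Fin (Units.rank F)) (κ : Type) [Fintype κ]
    [DecidableEq κ] (φ : κ ≃ {w : InfinitePlace F // w ≠ v}) :
    ∃ q : ℚ, Units.regulator F = q * Matrix.det (Matrix.of fun a b : κ =>
      Real.log ((φ a : InfinitePlace F) ((Units.fundSystem F (e (φ b)) : 𝓞 F) : F) ^
        (φ a : InfinitePlace F).mult)) := by
  classical
  have h := Units.regulator_eq_det F v e
  set M : Matrix {w : InfinitePlace F // w ≠ v} {w : InfinitePlace F // w ≠ v} ℝ :=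
    Matrix.of fun i w : {w // w ≠ v} ↦ (InfinitePlace.mult w.val : ℝ) *
        Real.log (w.val (Units.fundSystem F (e i) : F)) with hM
  have hdet : Matrix.det (Matrix.of fun a b : κ =>
      Real.log ((φ a : InfinitePlace F) ((Units.fundSystem F (e (φ b)) : 𝓞 F) : F) ^
        (φ a : InfinitePlace F).mult)) = M.det := by
    rw [← Matrix.det_submatrix_equiv_self φ M, ← Matrix.det_transpose]
    congr 1
    ext a b
    simp only [Matrix.of_apply, Matrix.transpose_apply, Matrix.submatrix_apply, hM, Real.log_pow]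
  rw [hdet, h]
  rcases abs_choice M.det with h' | h'
  · exact ⟨1, by rw [h']; simp⟩
  · exact ⟨-1, by rw [h']; simp⟩

theorem t_REG1 : S_REG1 := by
  classical
  intro F _ _ v ι _ _ u hu huv hcard
  obtain ⟨e⟩ := exists_equiv F v
  have hb : Function.Bijective (fun a : ι => (⟨u a, huv a⟩ : {w : InfinitePlace F // w ≠ v})) := by
    rw [Fintype.bijective_iff_injective_and_card]
    refine ⟨fun a b h => hu (congrArg Subtype.val h), ?_⟩
    rw [Fintype.card_subtype_compl, Fintype.card_subtype_eq]
    omega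
  obtain ⟨q, hq⟩ := reg_core F v e ι (Equiv.ofBijective _ hb)
  exact ⟨fun b => Units.fundSystem F (e (Equiv.ofBijective _ hb b)), q, hq⟩

theorem t_REG2 : S_REG2 := by
  classical
  intro F _ _ ι _ _ u hu x
  obtain ⟨w₀⟩ : Nonempty (InfinitePlace F) := inferInstance
  obtain ⟨b₀, hb₀⟩ := hu.2 w₀
  obtain ⟨e⟩ := exists_equiv F w₀
  have hne : ∀ b : ι, b ≠ b₀ → u b ≠ w₀ := fun b hb h => hb (hu.1 (h.trans hb₀.symm))
  -- the equivalence of the indices
  have hbij : Function.Bijective (fun a : {b : ι // b ≠ b₀} =>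
      (⟨u a, hne a a.2⟩ : {w : InfinitePlace F // w ≠ w₀})) := by
    constructor
    · intro a b h
      exact Subtype.ext (hu.1 (congrArg Subtype.val h))
    · rintro ⟨w, hw⟩
      obtain ⟨b, rfl⟩ := hu.2 w
      exact ⟨⟨b, fun h => hw (h ▸ hb₀)⟩, rfl⟩
  obtain ⟨q, hq⟩ := reg_core F w₀ e {b : ι // b ≠ b₀} (Equiv.ofBijective _ hbij)
  set y : ι → Fˣ := fun b => if h : b ≠ b₀ then
    Units.map (algebraMap (𝓞 F) F : 𝓞 F →* F) (Units.fundSystem F (e ⟨u b, hne b h⟩)) else x with hy
  have hy0 : y b₀ = x := by simp [hy]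
  have hy1 : ∀ b (h : b ≠ b₀), y b = Units.map (algebraMap (𝓞 F) F : 𝓞 F →* F)
      (Units.fundSystem F (e ⟨u b, hne b h⟩)) := fun b h => by simp [hy, h]
  refine ⟨y, q, ?_, ?_⟩
  · intro b
    by_cases h : b = b₀
    · left; rw [h, hy0]
    · right
      exact ⟨Units.fundSystem F (e ⟨u b, hne b h⟩), by rw [hy1 b h]; rfl⟩
  · set A : Matrix ι ι ℝ := Matrix.of fun a b : ι => Real.log (u a (y b : F) ^ (u a).mult) with hA
    set T₀ : ℝ := ∑ w : InfinitePlace F, Real.log (w (x : F) ^ w.mult) with hT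
    have hsum : ∀ b, ∑ a, A a b = if b = b₀ then T₀ else 0 := by
      intro b
      have h1 : ∑ a, A a b = ∑ w : InfinitePlace F, Real.log (w (y b : F) ^ w.mult) := by
        simp only [hA, Matrix.of_apply]
        exact Fintype.sum_equiv (Equiv.ofBijective u hu) _ _ (fun a => rfl)
      rw [h1]
      by_cases h : b = b₀
      · rw [if_pos h, h, hy0]
      · rw [if_neg h, hy1 b h]
        have := Units.sum_mult_mul_log (Units.fundSystem F (e ⟨u b, hne b h⟩))
        rw [← this]
        refine Finset.sum_congr rfl fun w _ => ?_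
        rw [Real.log_pow]
        rfl
    set B : Matrix ι ι ℝ := A.updateRow b₀ (∑ k, (1 : ℝ) • A k) with hB
    have hdet : B.det = A.det := by
      have := Matrix.det_updateRow_sum A b₀ (fun _ => (1 : ℝ))
      rw [one_smul] at this
      exact this
    have hB0 : ∀ b, B b₀ b = if b = b₀ then T₀ else 0 := by
      intro b
      rw [hB, Matrix.updateRow_self, ← hsum b]
      simp only [one_smul]
      exact Finset.sum_apply _ _ _
    have hB1 : ∀ a b, a ≠ b₀ → B a b = A a b := by
      intro a b h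
      rw [hB, Matrix.updateRow_ne h]
    have hblock := Matrix.twoBlockTriangular_det B (fun i => i ≠ b₀) (by
      intro i hi j hj
      have hi' : i = b₀ := not_not.mp hi
      rw [hi', hB0, if_neg hj])
    have hu1 : (B.toSquareBlockProp fun i => ¬ i ≠ b₀).det = T₀ := by
      have hs : Subsingleton {i : ι // ¬ i ≠ b₀} :=
        ⟨fun i j => Subtype.ext ((not_not.mp i.2).trans (not_not.mp j.2).symm)⟩
      rw [Matrix.det_eq_elem_of_subsingleton _ (⟨b₀, fun h => h rfl⟩ : {i : ι // ¬ i ≠ b₀})]
      have : B.toSquareBlockProp (fun i => ¬ i ≠ b₀) ⟨b₀, fun h => h rfl⟩ ⟨b₀, fun h => h rfl⟩ =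
        B b₀ b₀ := rfl
      rw [this, hB0, if_pos rfl]
    have hm : (B.toSquareBlockProp fun i => i ≠ b₀).det =
        Matrix.det (Matrix.of fun a b : {b : ι // b ≠ b₀} =>
      Real.log (((Equiv.ofBijective _ hbij) a : InfinitePlace F)
        ((Units.fundSystem F (e ((Equiv.ofBijective _ hbij) b)) : 𝓞 F) : F) ^
        ((Equiv.ofBijective _ hbij) a : InfinitePlace F).mult)) := by
      congr 1
      ext a b
      have : B.toSquareBlockProp (fun i => i ≠ b₀) a b = B a b := rfl
      rw [this, hB1 _ _ a.2, hA, Matrix.of_apply, Matrix.of_apply, hy1 _ b.2]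
      rfl
    rw [← hdet, hblock, hu1, hm, hq]
    ring

end Pool.Agent.K3h95.E2
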